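import Pool.Agent.L7h9.VA.Lift
set_option autoImplicit false

/-!
Algebraically independent functions on a variety are part of a transcendence basis; the tori in the
affine space of a transcendence basis can be lifted to the variety.
-/

namespace Pool.Agent.L7h9.VA

open scoped Polynomial

open Pool.Agent.TH826.MK

section sub

variable {K : Type*} [Field K] [CharZero K] {M : ℕ} {σ : K →+* ℂ}

theorem lif_adjoin {A : Type*} [CommRing A] [IsDomain A] [CharZero A]
    [Algebra (MvPolynomial (Fin M) K) A]
    (hinj : Function.Injective (algebraMap (MvPolynomial (Fin M) K) A))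
    (halg : ∀ a : A, IsAlgebraic (MvPolynomial (Fin M) K) a) (s : Finset A) :
    ∀ S : Subalgebra (MvPolynomial (Fin M) K) A,
      S = Algebra.adjoin (MvPolynomial (Fin M) K) (s : Set A) →
      Lif σ (algebraMap (MvPolynomial (Fin M) K) S) := by
  classical
  induction s using Finset.induction_on with
  | empty =>
    intro S hS
    rw [Finset.coe_empty, Algebra.adjoin_empty] at hS
    subst hS
    refine lif_comap (j := RingHom.id (MvPolynomial (Fin M) K))
      (Algebra.botEquivOfInjective hinj : (⊥ : Subalgebra (MvPolynomial (Fin M) K) A) ≃ₐ[_] _)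
      (fun c => ?_) lif_id
    exact (Algebra.botEquivOfInjective hinj).commutes c
  | insert a s has ih =>
    intro S hS
    set B := Algebra.adjoin (MvPolynomial (Fin M) K) (s : Set A) with hB
    have hBS : B ≤ S := by
      rw [hB, hS]
      exact Algebra.adjoin_mono (by rw [Finset.coe_insert]; exact Set.subset_insert _ _)
    have haS : a ∈ S := by
      rw [hS]
      exact Algebra.subset_adjoin (Finset.mem_coe.2 (Finset.mem_insert_self a s))
    set φ : B →+* S := (Subalgebra.inclusion hBS).toRingHom with hφ
    have hφv : ∀ b : B, ((φ b : S) : A) = b := fun b => rfl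
    have hφi : Function.Injective φ := Subalgebra.inclusion_injective hBS
    have hBi : Function.Injective (algebraMap (MvPolynomial (Fin M) K) B) := fun p q h =>
      hinj (congrArg Subtype.val h)
    have hBc : CharZero B := charZero_of_injective_algebraMap hBi
    have hev : ∀ q : B[X], ((q.eval₂ φ ⟨a, haS⟩ : S) : A) = Polynomial.aeval a q := by
      intro q
      have h1 := Polynomial.hom_eval₂ q φ (S.val : S →+* A) ⟨a, haS⟩
      rw [Polynomial.aeval_def]
      exact h1
    have h := lif_step (σ := σ) (j := algebraMap (MvPolynomial (Fin M) K) B) φ hφi ⟨a, haS⟩ ?_ ?_ ?_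
      (ih B rfl)
    · exact h
    · rintro ⟨b, hb⟩
      have h1 : b ∈ Algebra.adjoin B ({a} : Set A) := by
        have h2 : b ∈ (Algebra.adjoin B ({a} : Set A)).restrictScalars
            (MvPolynomial (Fin M) K) := by
          rw [hB, ← Algebra.adjoin_union_eq_adjoin_adjoin]
          rw [hS] at hb
          rwa [Finset.coe_insert, ← Set.union_singleton] at hb
        exact h2
      rw [Algebra.adjoin_singleton_eq_range_aeval] at h1
      obtain ⟨q, hq⟩ := h1
      refine ⟨q, Subtype.ext ?_⟩
      rw [Polynomial.coe_eval₂RingHom, hev]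
      exact hq
    · intro b hb
      have h1 : IsAlgebraic (MvPolynomial (Fin M) K) b :=
        (isAlgebraic_algebraMap_iff (A := A) (Subtype.val_injective)).1 (halg b)
      have h2 := Ideal.comap_ne_bot_of_algebraic_mem (I := Ideal.span {b}) hb
        (Ideal.mem_span_singleton_self b) h1
      obtain ⟨f, hf, hf0⟩ := Submodule.exists_mem_ne_zero_of_ne_bot h2
      exact ⟨f, hf0, Ideal.mem_span_singleton.1 hf⟩
    · obtain ⟨q, hq0, hq⟩ := halg a
      refine ⟨q.map (algebraMap _ B), ?_, ?_⟩
      · rwa [Ne, Polynomial.map_eq_zero_iff hBi]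
      · refine Subtype.ext ?_
        rw [hev, Polynomial.aeval_map_algebraMap, hq]
        rfl

end sub

section main

variable {K : Type*} [Field K] [CharZero K] {A : Type*} [CommRing A] [IsDomain A] [Algebra K A]
  [Algebra.FiniteType K A]

theorem lif_basis (σ : K →+* ℂ) {M : ℕ} {x : Fin M → A} (hx : AlgebraicIndependent K x)
    (halg : ∀ a : A, IsAlgebraic (Algebra.adjoin K (Set.range x)) a) :
    Lif σ (MvPolynomial.aeval (R := K) x).toRingHom := by
  classical
  have hchar : CharZero A := charZero_of_injective_algebraMap (algebraMap K A).injective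
  letI : Algebra (MvPolynomial (Fin M) K) A :=
    (MvPolynomial.aeval (R := K) x).toRingHom.toAlgebra
  have hmap : ∀ c, algebraMap (MvPolynomial (Fin M) K) A c = MvPolynomial.aeval x c :=
    fun c => rfl
  haveI : IsScalarTower K (MvPolynomial (Fin M) K) A := IsScalarTower.of_algebraMap_eq fun c => by
    rw [hmap, MvPolynomial.algebraMap_eq, MvPolynomial.aeval_C]
  have hinj : Function.Injective (algebraMap (MvPolynomial (Fin M) K) A) := hx
  have halg' : ∀ a : A, IsAlgebraic (MvPolynomial (Fin M) K) a := by
    intro a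
    obtain ⟨q, hq0, hq⟩ := halg a
    set e := hx.aevalEquiv with he
    refine ⟨q.map (e.symm : _ →+* MvPolynomial (Fin M) K), ?_, ?_⟩
    · rwa [Ne, Polynomial.map_eq_zero_iff e.symm.injective]
    · rw [Polynomial.aeval_def, Polynomial.eval₂_map]
      rw [Polynomial.aeval_def] at hq
      rw [← hq]
      congr 1
      refine RingHom.ext fun b => ?_
      rw [RingHom.comp_apply, hmap]
      obtain ⟨c, rfl⟩ := e.surjective b
      have h1 : (e.symm : _ →+* MvPolynomial (Fin M) K) (e c) = c := e.symm_apply_apply c
      rw [h1, he, hx.algebraMap_aevalEquiv]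
  obtain ⟨s, hs⟩ := (Algebra.FiniteType.out : (⊤ : Subalgebra K A).FG)
  have htop : (⊤ : Subalgebra (MvPolynomial (Fin M) K) A) =
      Algebra.adjoin (MvPolynomial (Fin M) K) (s : Set A) := by
    symm
    rw [eq_top_iff]
    intro a _
    have h1 : Algebra.adjoin K (s : Set A) ≤
        (Algebra.adjoin (MvPolynomial (Fin M) K) (s : Set A)).restrictScalars K :=
      Algebra.adjoin_le Algebra.subset_adjoin
    have h2 : a ∈ Algebra.adjoin K (s : Set A) := by
      rw [hs]
      exact Algebra.mem_top
    exact h1 h2
  have h := lif_adjoin (σ := σ) hinj halg' s ⊤ htop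
  refine lif_comap (j := algebraMap (MvPolynomial (Fin M) K)
    (⊤ : Subalgebra (MvPolynomial (Fin M) K) A))
    ((Subalgebra.topEquiv (R := MvPolynomial (Fin M) K) (A := A)).symm : A →+* _)
    (fun c => ?_) h
  exact (Subalgebra.topEquiv (R := MvPolynomial (Fin M) K) (A := A)).symm.commutes c

/-- Algebraically independent functions are part of a transcendence basis. -/
theorem exists_basis {n : ℕ} {g : Fin n → A} (hg : AlgebraicIndependent K g) :
    ∃ (k : ℕ) (x : Fin (k + n) → A), AlgebraicIndependent K x ∧
      (∀ j, x (Fin.natAdd k j) = g j) ∧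
      ∀ a : A, IsAlgebraic (Algebra.adjoin K (Set.range x)) a := by
  classical
  obtain ⟨t, hst, ht⟩ := exists_isTranscendenceBasis_superset (s := Set.range g) hg.coe_range
  have hfin : t.Finite := by
    have h1 := ht.cardinalMk_eq_trdeg
    rw [← Cardinal.lt_aleph0_iff_set_finite, h1]
    exact trdeg_lt_aleph0_of_finiteType
  have hfin' : (t \ Set.range g).Finite := hfin.subset Set.sdiff_subset
  obtain ⟨k, ⟨e⟩⟩ : ∃ k : ℕ, Nonempty (Fin k ≃ ↥(t \ Set.range g)) := by
    have := hfin'.fintype
    exact ⟨Fintype.card ↥(t \ Set.range g), ⟨(Fintype.equivFin _).symm⟩⟩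
  set x : Fin (k + n) → A := Fin.append (fun i => (e i : A)) g with hx
  have hxl : ∀ i, x (Fin.castAdd n i) = e i := fun i => Fin.append_left _ _ i
  have hxr : ∀ j, x (Fin.natAdd k j) = g j := fun j => Fin.append_right _ _ j
  have hxt : ∀ i, x i ∈ t := by
    intro i
    refine Fin.addCases (fun i => ?_) (fun j => ?_) i
    · rw [hxl]
      exact (e i).2.1
    · rw [hxr]
      exact hst ⟨j, rfl⟩
  have hxinj : Function.Injective x := by
    intro i i'
    refine Fin.addCases (fun i => ?_) (fun j => ?_) i <;>
      refine Fin.addCases (fun i' => ?_) (fun j' => ?_) i'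
    · intro h
      rw [hxl, hxl] at h
      rw [e.injective (Subtype.ext h)]
    · intro h
      rw [hxl, hxr] at h
      exact absurd ⟨j', h.symm⟩ (e i).2.2
    · intro h
      rw [hxl, hxr] at h
      exact absurd ⟨j, h⟩ (e i').2.2
    · intro h
      rw [hxr, hxr] at h
      rw [hg.injective h]
  have hrange : Set.range x = t := by
    refine Set.Subset.antisymm (Set.range_subset_iff.2 hxt) fun a ha => ?_
    by_cases h : a ∈ Set.range g
    · obtain ⟨j, rfl⟩ := h
      exact ⟨_, hxr j⟩
    · refine ⟨Fin.castAdd n (e.symm ⟨a, ha, h⟩), ?_⟩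
      rw [hxl, Equiv.apply_symm_apply]
  refine ⟨k, x, ?_, hxr, ?_⟩
  · have h1 := ht.1.comp (fun i => (⟨x i, hxt i⟩ : t)) fun i i' h =>
      hxinj (congrArg Subtype.val h)
    exact h1
  · rw [hrange]
    have h1 := ht.isAlgebraic
    rw [Subtype.range_coe] at h1
    exact h1.isAlgebraic

end main

end Pool.Agent.L7h9.VA
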