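import Pool.Agent.L7h9.CP.AsyC
import Pool.Agent.L7h9.SU.Base
set_option autoImplicit false

/-!
Small tori in an affine space on which given polynomials have prescribed winding numbers, and the
integrals of the symbols with the constant `2` on tori with given winding numbers.
-/

namespace Pool.Agent.L7h9.VA

open Filter Topology MeasureTheory Set

open MvPolynomial

open Pool.Agent.TH826.MK

open Pool.Agent.TH826.SX (pairing_close)

open Pool.Agent.N65.TL

open Pool.Agent.TH577.UA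

open Pool.Agent.L7h9.SU

open Pool.Agent.Y797.TW (exists_rapid nex ex mch wcc eval_mch prod_wcc hh contDiff_hh hh_zero
  contDiff_wcc wcc_zero IsLow)

section small

variable {M d : ℕ}

theorem exists_small {E : Type*} [Fintype E] (q : E → MvPolynomial (Fin (M + 1)) ℂ)
    (al : E → Fin (M + 1) →₀ ℕ) (hal : ∀ e, IsLow (q e) (al e)) (τ : Fin (M + 1) → Fin d) :
    ∃ m : Fin (M + 1) → ℕ, ∀ δ : ℝ, 0 < δ → ∃ w : (Fin d → ℝ) → Fin (M + 1) → ℂ,
      ContDiff ℝ 2 w ∧ (∀ θ i, w (θ + Pi.single i 1) = w θ) ∧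
      ∀ e, Good (fun θ => MvPolynomial.eval (w θ) (q e)) ∧
        ∀ j θ, ‖lw (fun θ => MvPolynomial.eval (w θ) (q e)) j θ - 2 * Real.pi * Complex.I *
          (∑ l, if j = τ l then (nex m (fun i => al e i) l : ℂ) else 0)‖ ≤ δ := by
  classical
  set D0 : ℕ := ∑ e, ∑ j, al e j with hD0
  have hD : ∀ e j, al e j ≤ D0 := fun e j =>
    (Finset.single_le_sum (f := fun j => al e j) (fun _ _ => Nat.zero_le _)
      (Finset.mem_univ j)).trans
    (Finset.single_le_sum (f := fun e => ∑ j, al e j) (fun _ _ => Nat.zero_le _)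
      (Finset.mem_univ e))
  obtain ⟨m, hm⟩ := exists_rapid D0 (M + 1)
  refine ⟨m, fun δ hδ => ?_⟩
  set mu : E → Fin (M + 1) → ℕ := fun e => nex m fun i => al e i with hmu
  set h : E → (Fin M → ℂ) × ℂ → ℂ := fun e y => hh m (q e) (al e) (wcc y) with hh'
  have hfac : ∀ e y, MvPolynomial.eval (mch m (wcc y)) (q e) =
      mmon (mu e) y * h e y := fun e y => by
    rw [eval_mch hm (hal e) (hD e), prod_wcc]
  have hcd : ∀ e, ContDiff ℂ 2 (h e) := fun e => (contDiff_hh m _ _).comp contDiff_wcc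
  have hne : ∀ e, h e 0 ≠ 0 := fun e => by
    simp only [hh']
    rw [wcc_zero]
    exact hh_zero hm (hal e) (hD e)
  obtain ⟨Cc, ρ, hC, hρ, hρ1, hrho⟩ := exists_rho (k := 1) one_pos h
    (fun e => (hcd e).contDiffAt) hne (P := fun _ => True) (Eventually.of_forall fun _ => trivial)
    hδ
  obtain ⟨-, hfun⟩ := hrho d τ
  set Y : (Fin d → ℝ) → (Fin M → ℂ) × ℂ := yk 1 ρ τ with hY
  have hhg : ∀ e, Good fun θ => h e (Y θ) := fun e => (hfun e).1
  have hhlw : ∀ e θ j, ‖lw (fun θ => h e (Y θ)) j θ‖ ≤ δ := fun e θ j => ((hfun e).2 θ).2 j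
  refine ⟨fun θ => mch m (wcc (Y θ)), ?_, fun θ i => ?_, fun e => ?_⟩
  · have hmch : ContDiff ℂ 2 fun u : (Fin M → ℂ) × ℂ => mch m (wcc u) := by
      refine contDiff_pi.2 fun j => ?_
      unfold mch
      exact contDiff_prod fun l _ => (contDiff_pi.1 contDiff_wcc l).pow _
    exact (hmch.restrict_scalars ℝ).comp (contDiff_yk hρ)
  · simp only [hY, yk_add_single]
  · have hLfun : (fun θ => MvPolynomial.eval (mch m (wcc (Y θ))) (q e)) =
        fun θ => mk1 ρ τ (fun i => 1 * mu e i) θ * h e (Y θ) := by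
      funext θ
      rw [hfac, hY, mmon_yk]
    rw [hLfun]
    refine ⟨(good_mk1 hρ _).mul (hhg e), fun j θ => ?_⟩
    rw [lw_mul (good_mk1 hρ _) (hhg e), lw_mk1 hρ]
    have h1 : ∑ i, (if j = τ i then (((1 * mu e i : ℕ)) : ℂ) else 0) =
        ∑ l, if j = τ l then (nex m (fun i => al e i) l : ℂ) else 0 := by
      refine Finset.sum_congr rfl fun l _ => ?_
      rw [one_mul]
    rw [h1, add_sub_cancel_left]
    exact hhlw e θ j

theorem exists_small' {M' : ℕ} (hM : 0 < M') {E : Type*} [Fintype E]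
    (q : E → MvPolynomial (Fin M') ℂ) (al : E → Fin M' →₀ ℕ) (hal : ∀ e, IsLow (q e) (al e))
    (τ : Fin M' → Fin d) :
    ∃ m : Fin M' → ℕ, ∀ δ : ℝ, 0 < δ → ∃ w : (Fin d → ℝ) → Fin M' → ℂ,
      ContDiff ℝ 2 w ∧ (∀ θ i, w (θ + Pi.single i 1) = w θ) ∧
      ∀ e, Good (fun θ => MvPolynomial.eval (w θ) (q e)) ∧
        ∀ j θ, ‖lw (fun θ => MvPolynomial.eval (w θ) (q e)) j θ - 2 * Real.pi * Complex.I *
          (∑ l, if j = τ l then (nex m (fun i => al e i) l : ℂ) else 0)‖ ≤ δ := by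
  obtain ⟨M, rfl⟩ := Nat.exists_eq_succ_of_ne_zero hM.ne'
  exact exists_small q al hal τ

end small

section lead

variable {n : ℕ}

theorem lead_close (R : Matrix (Fin (n + 1)) (Fin (n + 1)) ℝ) {ε : ℝ} (hε : 0 < ε) :
    ∃ δ : ℝ, 0 < δ ∧ ∀ H : Fin (n + 1) → (Fin n → ℝ) → ℂ, (∀ l, Good (H l)) →
      (∀ l, Per (H l)) →
      (∀ l j θ, ‖lw (H l) j θ - 2 * Real.pi * Complex.I * R l j.succ‖ ≤ δ) →
      |(∑ l, R l 0 * pairing (Function.update H l fun _ => (2 : ℂ))) / Real.log 2 -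
        (2 * Real.pi) ^ n * R.det| ≤ ε := by
  obtain ⟨δ1, hδ1, h1⟩ := pairing_close R (half_pos hε)
  refine ⟨δ1 / 2, by linarith, fun H hH hP hlw => ?_⟩
  obtain ⟨δ2, hδ2, h2⟩ := Pool.Agent.L7h9.CP.asyC (k := 1) one_pos hH hP (fun _ => 1)
    (fun l => R l 0) (half_pos hε)
  choose Cu hCu0 hCul hCuw using fun i => Good.bdd (hH i) (hP i)
  set Cs : ℝ := ∑ i, Cu i with hCs
  have hCs0 : 0 ≤ Cs := Finset.sum_nonneg fun i _ => hCu0 i
  have hCule : ∀ i, Cu i ≤ Cs := fun i =>
    Finset.single_le_sum (f := Cu) (fun i _ => hCu0 i) (Finset.mem_univ i)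
  set δ : ℝ := min (δ1 / 2) δ2 with hδ
  have hδ0 : 0 < δ := lt_min (by linarith) hδ2
  set t : ℝ := Cs / δ + 1 with ht
  have htpos : 0 < t := by positivity
  set Z : Fin (n + 1) → (Fin n → ℝ) → ℂ := fun l θ => ((Real.exp (t * R l 0) : ℝ) : ℂ) * H l θ
    with hZ
  have hexp : ∀ l, ((Real.exp (t * R l 0) : ℝ) : ℂ) ≠ 0 := fun l => by
    exact_mod_cast (Real.exp_pos _).ne'
  have hZg : ∀ l, Good (Z l) := fun l => (good_const (hexp l)).mul (hH l)
  have hZlw : ∀ l j θ, lw (Z l) j θ = lw (H l) j θ := fun l j θ => by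
    simp only [hZ]
    rw [lw_mul (good_const (hexp l)) (hH l), lw_const, zero_add]
  have hZlog : ∀ l θ, |Real.log ‖Z l θ‖ / t - R l 0| ≤ δ := by
    intro l θ
    have e1 : Real.log ‖Z l θ‖ = t * R l 0 + Real.log ‖H l θ‖ := by
      simp only [hZ]
      rw [norm_mul, Real.log_mul (norm_ne_zero_iff.2 (hexp l))
        (norm_ne_zero_iff.2 ((hH l).ne_zero θ)), Complex.norm_real, Real.norm_eq_abs,
        abs_of_pos (Real.exp_pos _), Real.log_exp]
    have e2 : Real.log ‖Z l θ‖ / t - R l 0 = Real.log ‖H l θ‖ / t := by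
      rw [e1]
      field_simp
      ring
    rw [e2, abs_div, abs_of_pos htpos, div_le_iff₀ htpos]
    have h3 := (hCul l θ).trans (hCule l)
    have h4 : Cs / δ ≤ t := by linarith
    rw [div_le_iff₀ hδ0] at h4
    linarith
  have a1 := h1 Z t htpos.ne' hZg (fun l θ => lt_of_le_of_lt ((hZlog l θ).trans (min_le_left _ _))
    (by linarith)) (fun l j θ => by
      rw [hZlw]
      exact lt_of_le_of_lt (hlw l j θ) (by linarith))
  have a2 := h2 Z t htpos hZg (fun l θ => by
      rw [one_mul]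
      exact (hZlog l θ).trans (min_le_right _ _)) (fun l j θ => by
      rw [hZlw, Complex.ofReal_one, one_mul, Nat.cast_one, one_smul, sub_self, norm_zero]
      exact hδ2.le)
  rw [Finset.prod_const_one, one_mul] at a2
  rw [abs_le] at a1 a2 ⊢
  constructor <;> linarith [a1.1, a1.2, a2.1, a2.2]

/-- The determinant of the degrees and the winding numbers. -/
theorem det_ne_zero (R : Matrix (Fin (n + 1)) (Fin (n + 1)) ℝ) (i0 : Fin (n + 1))
    (h0 : R i0 0 ≠ 0) (h1 : ∀ j : Fin n, R i0 j.succ = 0)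
    (h2 : ∀ j' j : Fin n, j < j' → R (i0.succAbove j') j.succ = 0)
    (h3 : ∀ j : Fin n, R (i0.succAbove j) j.succ ≠ 0) : R.det ≠ 0 := by
  rw [Matrix.det_succ_row _ i0, Fin.sum_univ_succ, Finset.sum_eq_zero (s := Finset.univ)
    (f := fun i : Fin n => (-1 : ℝ) ^ ((i0 : ℕ) + (i.succ : ℕ)) * R i0 i.succ *
      (R.submatrix i0.succAbove i.succ.succAbove).det) (fun i _ => by
        rw [h1, mul_zero, zero_mul]), add_zero]
  refine mul_ne_zero (mul_ne_zero (pow_ne_zero _ (by norm_num)) h0) ?_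
  rw [Matrix.det_of_upperTriangular]
  · refine Finset.prod_ne_zero_iff.2 fun j _ => ?_
    rw [Matrix.submatrix_apply, Fin.succAbove_zero]
    exact h3 j
  · intro j' j hj
    rw [Matrix.submatrix_apply, Fin.succAbove_zero]
    exact h2 j' j hj

end lead

section low

variable {M : ℕ}

theorem isLow_zero {F : MvPolynomial (Fin M) ℂ} (h : MvPolynomial.constantCoeff F ≠ 0) :
    IsLow F 0 := by
  classical
  refine ⟨MvPolynomial.mem_support_iff.2 h, fun β _ hne => ?_⟩
  have h1 : (Finset.univ.filter fun i => β i ≠ 0).Nonempty := by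
    by_contra hcon
    rw [Finset.not_nonempty_iff_eq_empty, Finset.filter_eq_empty_iff] at hcon
    refine hne (Finsupp.ext fun i => ?_)
    have := hcon (Finset.mem_univ i)
    push Not at this
    exact this
  refine ⟨(Finset.univ.filter fun i => β i ≠ 0).min' h1, fun j hj => ?_, ?_⟩
  · by_contra hcon
    refine absurd (Finset.min'_le _ j (Finset.mem_filter.2 ⟨Finset.mem_univ _, ?_⟩)) (not_le.2 hj)
    exact fun h => hcon (by rw [h]; rfl)
  · have := (Finset.mem_filter.1 (Finset.min'_mem _ h1)).2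
    exact Nat.pos_of_ne_zero this

theorem isLow_uni (l : Fin M) {T : Polynomial ℂ} (hT : T ≠ 0) :
    IsLow (Polynomial.aeval (MvPolynomial.X l : MvPolynomial (Fin M) ℂ) T)
      (Finsupp.single l T.natTrailingDegree) := by
  classical
  have hcoeff : ∀ β : Fin M →₀ ℕ, MvPolynomial.coeff β
      (Polynomial.aeval (MvPolynomial.X l : MvPolynomial (Fin M) ℂ) T) =
      ∑ i ∈ Finset.range (T.natDegree + 1), if Finsupp.single l i = β then T.coeff i else 0 := by
    intro β
    rw [Polynomial.aeval_eq_sum_range, MvPolynomial.coeff_sum]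
    refine Finset.sum_congr rfl fun i _ => ?_
    rw [MvPolynomial.coeff_smul, MvPolynomial.coeff_X_pow, smul_eq_mul, mul_ite, mul_one,
      mul_zero]
  have hs : ∀ β : Fin M →₀ ℕ, MvPolynomial.coeff β
      (Polynomial.aeval (MvPolynomial.X l : MvPolynomial (Fin M) ℂ) T) ≠ 0 →
      ∃ i, β = Finsupp.single l i ∧ T.coeff i ≠ 0 := by
    intro β hβ
    rw [hcoeff] at hβ
    obtain ⟨i, -, hi⟩ := Finset.exists_ne_zero_of_sum_ne_zero hβ
    split_ifs at hi with h
    · exact ⟨i, h.symm, hi⟩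
    · exact absurd rfl hi
  have hs' : ∀ i, T.coeff i ≠ 0 → MvPolynomial.coeff (Finsupp.single l i)
      (Polynomial.aeval (MvPolynomial.X l : MvPolynomial (Fin M) ℂ) T) = T.coeff i := by
    intro i hi
    rw [hcoeff, Finset.sum_eq_single i]
    · rw [if_pos rfl]
    · intro b _ hb
      rw [if_neg fun h => hb (Finsupp.single_injective l h)]
    · intro hn
      refine absurd (Finset.mem_range.2 ?_) hn
      exact Nat.lt_succ_of_le (Polynomial.le_natDegree_of_ne_zero hi)
  have ht : T.coeff T.natTrailingDegree ≠ 0 := by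
    have := Polynomial.trailingCoeff_nonzero_iff_nonzero.2 hT
    exact this
  refine ⟨MvPolynomial.mem_support_iff.2 (by rw [hs' _ ht]; exact ht), fun β hβ hne => ?_⟩
  obtain ⟨i, rfl, hi⟩ := hs β (MvPolynomial.mem_support_iff.1 hβ)
  refine ⟨l, fun j hj => ?_, ?_⟩
  · rw [Finsupp.single_eq_of_ne hj.ne, Finsupp.single_eq_of_ne hj.ne]
  · rw [Finsupp.single_eq_same, Finsupp.single_eq_same]
    refine lt_of_le_of_ne (Polynomial.natTrailingDegree_le_of_ne_zero hi) fun h => hne ?_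
    rw [h]

end low

end Pool.Agent.L7h9.VA
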