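import Pool.Agent.L7h9.VA.Basis
import Pool.Agent.L7h9.VA.Small
import Pool.Agent.L7h9.CP.Defs
set_option autoImplicit false

/-!
Tori in a variety near a corner of a circuit, on which the regulator of the leading class does not
vanish.
-/

namespace Pool.Agent.L7h9.VA

open Pool.Agent.TH826.MK

open Pool.Agent.N65.TL

open Pool.Agent.L7h9.SU

open Pool.Agent.L7h9.CP (Cov lead sub)

open Pool.Agent.Y797.TW (nex ex IsLow)

section shift

variable {M : ℕ} (cen : Fin M → ℂ)

/-- the shifted variables -/
noncomputable def shv (l : Fin M) : MvPolynomial (Fin M) ℂ :=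
  MvPolynomial.X l + MvPolynomial.C (cen l)

theorem bind_shv_injective : Function.Injective (MvPolynomial.bind₁ (shv cen)) := by
  refine Function.LeftInverse.injective
    (g := MvPolynomial.bind₁ fun l => MvPolynomial.X l - MvPolynomial.C (cen l)) fun p => ?_
  rw [MvPolynomial.bind₁_bind₁]
  have h : (fun i => MvPolynomial.bind₁ (fun l => MvPolynomial.X l - MvPolynomial.C (cen l))
      (shv cen i)) = (MvPolynomial.X : Fin M → MvPolynomial (Fin M) ℂ) := by
    funext i
    unfold shv
    rw [map_add, MvPolynomial.bind₁_X_right, MvPolynomial.bind₁_C_right, sub_add_cancel]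
  rw [h]
  exact MvPolynomial.aeval_X_left_apply p

theorem eval_shv (w : Fin M → ℂ) (l : Fin M) :
    MvPolynomial.eval w (shv cen l) = w l + cen l := by
  unfold shv
  rw [map_add, MvPolynomial.eval_X, MvPolynomial.eval_C]

theorem eval_bind_shv (w : Fin M → ℂ) (p : MvPolynomial (Fin M) ℂ) :
    MvPolynomial.eval w (MvPolynomial.bind₁ (shv cen) p) =
      MvPolynomial.eval (fun l => w l + cen l) p := by
  unfold MvPolynomial.eval
  rw [MvPolynomial.eval₂Hom_bind₁]
  congr 2
  funext l
  exact eval_shv cen w l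

theorem isLow_shv (l : Fin M) {F : Polynomial ℂ} (hF : F.Monic) (hroot : F.eval (cen l) = 0) :
    ∃ t : ℕ, 0 < t ∧ IsLow (Polynomial.aeval (shv cen l) F) (Finsupp.single l t) := by
  set T : Polynomial ℂ := F.comp (Polynomial.X + Polynomial.C (cen l)) with hT
  have hTm : T.Monic := hF.comp (Polynomial.monic_X_add_C _) (by
    rw [Polynomial.natDegree_X_add_C]
    exact one_ne_zero)
  have hT0 : T.coeff 0 = 0 := by
    rw [Polynomial.coeff_zero_eq_eval_zero, hT, Polynomial.eval_comp, Polynomial.eval_add,
      Polynomial.eval_X, Polynomial.eval_C, zero_add, hroot]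
  have h1 : Polynomial.aeval (shv cen l) F =
      Polynomial.aeval (MvPolynomial.X l : MvPolynomial (Fin M) ℂ) T := by
    rw [hT, Polynomial.aeval_comp]
    congr 1
    rw [map_add, Polynomial.aeval_X, Polynomial.aeval_C]
    rfl
  refine ⟨T.natTrailingDegree, ?_, ?_⟩
  · by_contra hcon
    have h2 : T.natTrailingDegree = 0 := by omega
    have h3 : T.coeff T.natTrailingDegree ≠ 0 :=
      Polynomial.trailingCoeff_nonzero_iff_nonzero.2 hTm.ne_zero
    rw [h2] at h3
    exact h3 hT0
  · rw [h1]
    exact isLow_uni l hTm.ne_zero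

end shift

section main

variable {K : Type*} [Field K] [CharZero K] {A : Type*} [CommRing A] [IsDomain A] [Algebra K A]
  [Algebra.FiniteType K A] {m n : ℕ}

theorem exists_corner (σ : K →+* ℂ) {C : Cov K A m} (hC : C.Admissible (algebraMap K A))
    {D : Fin (n + 1 + 1) → Fin m} {c : Fin (n + 1 + 1) → K} (i0 : Fin (n + 1 + 1))
    (hrel : ∑ i, algebraMap K A (c i) * C.g (D i) = 0) (hc : c i0 ≠ 0)
    (hind : AlgebraicIndependent K fun j => C.g (D (i0.succAbove j))) (β : Fin (n + 1) → ℂ)
    (hβ : ∀ j, ((C.F (D (i0.succAbove j))).map σ).eval (β j) = 0) {b0 : ℂ}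
    (hb0 : σ (c i0) * b0 + ∑ j, σ (c (i0.succAbove j)) * β j = 0)
    (hF : ((C.F (D i0)).map σ).eval b0 ≠ 0) :
    ∃ γ : Torus A (n + 1), (∀ θ (x : K), γ.e θ (algebraMap K A x) = σ x) ∧
      γ.reg (lead C (algebraMap K A) D) ≠ 0 := by
  classical
  obtain ⟨k, x, hx, hxg, halg⟩ := exists_basis hind
  obtain ⟨h, hh, hL⟩ := lif_basis σ hx halg
  have hc' : σ (c i0) ≠ 0 := by rwa [Ne, map_eq_zero]
  -- the coordinates
  set cen : Fin (k + (n + 1)) → ℂ := Fin.append (fun _ : Fin k => (0 : ℂ)) β with hcen
  have hcenr : ∀ j, cen (Fin.natAdd k j) = β j := fun j => Fin.append_right _ _ j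
  set G : Fin (n + 1 + 1) → MvPolynomial (Fin (k + (n + 1))) ℂ :=
    i0.insertNth (∑ j, MvPolynomial.C (-(σ (c (i0.succAbove j)) / σ (c i0))) *
      shv cen (Fin.natAdd k j)) fun j => shv cen (Fin.natAdd k j) with hG
  have hG0 : G i0 = ∑ j, MvPolynomial.C (-(σ (c (i0.succAbove j)) / σ (c i0))) *
      shv cen (Fin.natAdd k j) := Fin.insertNth_apply_same _ _ _
  have hG1 : ∀ j, G (i0.succAbove j) = shv cen (Fin.natAdd k j) := fun j =>
    Fin.insertNth_apply_succAbove _ _ _ _
  set q : Option (Fin (n + 1 + 1)) → MvPolynomial (Fin (k + (n + 1))) ℂ := fun e =>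
    e.elim (MvPolynomial.bind₁ (shv cen) (MvPolynomial.map σ h))
      fun i => Polynomial.aeval (G i) ((C.F (D i)).map σ) with hq
  have hlow1 : ∀ j, ∃ t : ℕ, 0 < t ∧ IsLow (q (some (i0.succAbove j)))
      (Finsupp.single (Fin.natAdd k j) t) := by
    intro j
    have h1 := isLow_shv cen (Fin.natAdd k j) (F := (C.F (D (i0.succAbove j))).map σ)
      ((hC.monic _).map σ) (by rw [hcenr]; exact hβ j)
    have h2 : q (some (i0.succAbove j)) = Polynomial.aeval (shv cen (Fin.natAdd k j))
        ((C.F (D (i0.succAbove j))).map σ) := by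
      rw [← hG1]
      rfl
    rw [h2]
    exact h1
  have hlow0 : IsLow (q (some i0)) 0 := by
    refine isLow_zero ?_
    have h1 : MvPolynomial.constantCoeff (q (some i0)) = ((C.F (D i0)).map σ).eval
        (MvPolynomial.constantCoeff (G i0)) := by
      show MvPolynomial.constantCoeff (Polynomial.aeval (G i0) ((C.F (D i0)).map σ)) = _
      rw [Polynomial.aeval_def, Polynomial.hom_eval₂, Polynomial.eval]
      congr 1
      exact RingHom.ext fun z => MvPolynomial.constantCoeff_C _ z
    have h2 : MvPolynomial.constantCoeff (G i0) = b0 := by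
      rw [hG0, map_sum]
      have h3 : ∀ j, MvPolynomial.constantCoeff (MvPolynomial.C
          (-(σ (c (i0.succAbove j)) / σ (c i0))) * shv cen (Fin.natAdd k j)) =
          -(σ (c (i0.succAbove j)) * β j) / σ (c i0) := fun j => by
        unfold shv
        rw [map_mul, map_add, MvPolynomial.constantCoeff_C, MvPolynomial.constantCoeff_X,
          MvPolynomial.constantCoeff_C, hcenr]
        ring
      simp only [h3]
      rw [← Finset.sum_div, Finset.sum_neg_distrib, div_eq_iff hc']
      linear_combination -hb0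
    rw [h1, h2]
    exact hF
  have hlowh : ∃ α, IsLow (q none) α := by
    refine Pool.Agent.Y797.TW.exists_low fun h0 => hh ?_
    have h1 : MvPolynomial.map σ h = 0 := bind_shv_injective cen (by rw [map_zero]; exact h0)
    exact MvPolynomial.map_injective σ σ.injective (by rw [map_zero]; exact h1)
  choose t ht hlowt using hlow1
  obtain ⟨α, hα⟩ := hlowh
  set al : Option (Fin (n + 1 + 1)) → Fin (k + (n + 1)) →₀ ℕ := fun e =>
    e.elim α (i0.insertNth 0 fun j => Finsupp.single (Fin.natAdd k j) (t j)) with hal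
  have hal0 : al (some i0) = 0 := by
    show (i0.insertNth 0 fun j => Finsupp.single (Fin.natAdd k j) (t j) :
      Fin (n + 1 + 1) → Fin (k + (n + 1)) →₀ ℕ) i0 = 0
    exact Fin.insertNth_apply_same _ _ _
  have hal1 : ∀ j, al (some (i0.succAbove j)) = Finsupp.single (Fin.natAdd k j) (t j) := by
    intro j
    show (i0.insertNth 0 fun j => Finsupp.single (Fin.natAdd k j) (t j) :
      Fin (n + 1 + 1) → Fin (k + (n + 1)) →₀ ℕ) (i0.succAbove j) = _
    exact Fin.insertNth_apply_succAbove _ _ _ _
  have hlow : ∀ e, IsLow (q e) (al e) := by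
    intro e
    rcases e with _ | i
    · exact hα
    · rcases Fin.eq_self_or_eq_succAbove i0 i with rfl | ⟨j, rfl⟩
      · rw [hal0]
        exact hlow0
      · rw [hal1]
        exact hlowt j
  set τ : Fin (k + (n + 1)) → Fin (n + 1) := Fin.append (fun _ => 0) id with hτ
  have hτr : ∀ j : Fin (n + 1), τ (Fin.natAdd k j) = j := fun j => Fin.append_right _ _ j
  obtain ⟨mm, hmm⟩ := exists_small' (M' := k + (n + 1)) (by omega) q al hlow τ
  -- the winding numbers
  set R : Matrix (Fin (n + 1 + 1)) (Fin (n + 1 + 1)) ℝ := Matrix.of fun i =>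
    Fin.cons ((C.F (D i)).natDegree : ℝ) fun j =>
      ∑ l, if j = τ l then (nex mm (fun a => al (some i) a) l : ℝ) else 0 with hR
  have hR0 : ∀ i, R i 0 = (C.F (D i)).natDegree := fun i => by
    rw [hR, Matrix.of_apply, Fin.cons_zero]
  have hRs : ∀ i (j : Fin (n + 1)), R i j.succ =
      ∑ l, if j = τ l then (nex mm (fun a => al (some i) a) l : ℝ) else 0 := fun i j => by
    rw [hR, Matrix.of_apply, Fin.cons_succ]
  have hnex1 : ∀ j l, nex mm (fun a => al (some (i0.succAbove j)) a) l =
      t j * ex mm (Fin.natAdd k j) l := by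
    intro j l
    unfold nex
    rw [Finset.sum_eq_single (Fin.natAdd k j)]
    · beta_reduce
      rw [hal1, Finsupp.single_eq_same]
    · intro b _ hb
      beta_reduce
      rw [hal1, Finsupp.single_eq_of_ne hb, zero_mul]
    · intro hn
      exact absurd (Finset.mem_univ _) hn
  have hsum : ∀ (i : Fin (n + 1)) (j : Fin (n + 1)), (∑ l, if j = τ l then
      (nex mm (fun a => al (some (i0.succAbove i)) a) l : ℝ) else 0) =
      t i * (ex mm (Fin.natAdd k i) (Fin.natAdd k j) : ℕ) := by
    intro i j
    rw [Fin.sum_univ_add, Finset.sum_eq_zero, zero_add, Finset.sum_eq_single j]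
    · rw [if_pos (hτr j).symm, hnex1]
      push_cast
      rfl
    · intro b _ hb
      rw [if_neg]
      rw [hτr]
      exact fun h => hb h.symm
    · intro hn
      exact absurd (Finset.mem_univ _) hn
    · intro l _
      have h3 : ex mm (Fin.natAdd k i : Fin (k + (n + 1))) (Fin.castAdd (n + 1) l) = 0 := by
        unfold ex
        rw [if_neg, if_neg]
        · intro h
          have h4 : k + (i : ℕ) < l := h
          have := l.isLt
          omega
        · intro h
          have h4 : k + (i : ℕ) = l := congrArg Fin.val h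
          have := l.isLt
          omega
      rw [hnex1, h3, mul_zero, Nat.cast_zero, ite_self]
  have hdet : R.det ≠ 0 := by
    refine det_ne_zero R i0 ?_ ?_ ?_ ?_
    · rw [hR0]
      exact_mod_cast (hC.pos _).ne'
    · intro j
      rw [hRs]
      refine Finset.sum_eq_zero fun l _ => ?_
      have h1 : nex mm (fun a => al (some i0) a) l = 0 := by
        unfold nex
        refine Finset.sum_eq_zero fun a _ => ?_
        have h2 : al (some i0) a = 0 := by
          rw [hal0]
          rfl
        beta_reduce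
        rw [h2, zero_mul]
      rw [h1, Nat.cast_zero, ite_self]
    · intro i j hij
      rw [hRs, hsum]
      have h1 : ex mm (Fin.natAdd k i : Fin (k + (n + 1))) (Fin.natAdd k j) = 0 := by
        unfold ex
        rw [if_neg, if_neg]
        · intro h
          have h4 : k + (i : ℕ) < k + j := h
          have h5 : (j : ℕ) < i := hij
          omega
        · intro h
          have h4 : k + (i : ℕ) = k + j := congrArg Fin.val h
          have h5 : (j : ℕ) < i := hij
          omega
      rw [h1, Nat.cast_zero, mul_zero]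
    · intro j
      rw [hRs, hsum]
      have h1 : ex mm (Fin.natAdd k j : Fin (k + (n + 1))) (Fin.natAdd k j) = 1 := by
        unfold ex
        rw [if_pos rfl]
      rw [h1, Nat.cast_one, mul_one]
      exact_mod_cast (ht j).ne'
  have hpi := Real.pi_pos
  have hlog2 : 0 < Real.log 2 := Real.log_pos one_lt_two
  set r : ℝ := (2 * Real.pi) ^ (n + 1) * R.det with hr
  have hr0 : r ≠ 0 := mul_ne_zero (by positivity) hdet
  obtain ⟨δ, hδ, hclose⟩ := lead_close R (ε := |r| / 2) (by positivity)
  obtain ⟨w, hwc, hwp, hw⟩ := hmm δ hδ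
  -- the torus in the affine space
  set X : (Fin (n + 1) → ℝ) → Fin (k + (n + 1)) → ℂ := fun θ l => w θ l + cen l with hX
  have hXc : ContDiff ℝ 2 X := contDiff_pi.2 fun l =>
    (contDiff_pi.1 hwc l).add contDiff_const
  have hXp : ∀ θ i, X (θ + Pi.single i 1) = X θ := fun θ i => by
    simp only [hX]
    rw [hwp]
  obtain ⟨N, γ, hN, hγ⟩ := hL (n + 1) X hXc hXp fun θ => by
    have h1 := (hw none).1.ne_zero θ
    have h2 : MvPolynomial.eval (w θ) (q none) = MvPolynomial.eval₂ σ (X θ) h := by
      show MvPolynomial.eval (w θ) (MvPolynomial.bind₁ (shv cen) (MvPolynomial.map σ h)) = _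
      rw [eval_bind_shv, MvPolynomial.eval_map]
    rwa [h2] at h1
  have hγσ : ∀ θ (x : K), γ.e θ (algebraMap K A x) = σ x := by
    intro θ y
    have h1 := hγ θ (MvPolynomial.C y)
    rw [MvPolynomial.eval₂_C] at h1
    rw [← h1]
    show _ = γ.e θ (MvPolynomial.aeval x (MvPolynomial.C y))
    rw [MvPolynomial.aeval_C]
  have hγx : ∀ θ l, γ.e θ (x l) = w ((N : ℝ) • θ) l + cen l := by
    intro θ l
    have h1 := hγ θ (MvPolynomial.X l)
    rw [MvPolynomial.eval₂_X] at h1
    have h2 : γ.e θ (MvPolynomial.aeval (R := K) x (MvPolynomial.X l)) = X ((N : ℝ) • θ) l := h1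
    rw [MvPolynomial.aeval_X] at h2
    exact h2
  have hγg : ∀ θ i, γ.e θ (C.g (D i)) = MvPolynomial.eval (w ((N : ℝ) • θ)) (G i) := by
    have h1 : ∀ θ j, γ.e θ (C.g (D (i0.succAbove j))) =
        MvPolynomial.eval (w ((N : ℝ) • θ)) (G (i0.succAbove j)) := by
      intro θ j
      rw [hG1, eval_shv, ← hγx, hxg]
    intro θ i
    rcases Fin.eq_self_or_eq_succAbove i0 i with rfl | ⟨j, rfl⟩
    · have h2 := congrArg (γ.e θ) hrel
      rw [Fin.sum_univ_succAbove _ i, map_add, map_mul, hγσ, map_sum, map_zero] at h2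
      have h3 : ∀ j, γ.e θ (algebraMap K A (c (i.succAbove j)) * C.g (D (i.succAbove j))) =
          σ (c (i.succAbove j)) * MvPolynomial.eval (w ((N : ℝ) • θ))
            (shv cen (Fin.natAdd k j)) := fun j => by
        rw [map_mul, hγσ, h1, hG1]
      simp only [h3] at h2
      rw [hG0, map_sum]
      have h4 : ∀ j, MvPolynomial.eval (w ((N : ℝ) • θ)) (MvPolynomial.C
          (-(σ (c (i.succAbove j)) / σ (c i))) * shv cen (Fin.natAdd k j)) =
          -(σ (c (i.succAbove j)) * MvPolynomial.eval (w ((N : ℝ) • θ))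
            (shv cen (Fin.natAdd k j))) / σ (c i) := fun j => by
        rw [map_mul, MvPolynomial.eval_C]
        ring
      simp only [h4]
      rw [← Finset.sum_div, Finset.sum_neg_distrib, eq_div_iff hc']
      linear_combination h2
    · exact h1 θ j
  have hγf : ∀ θ i, γ.e θ (C.f (D i) : A) =
      MvPolynomial.eval (w ((N : ℝ) • θ)) (q (some i)) := by
    intro θ i
    rw [hC.val, Polynomial.hom_eval₂, hγg]
    show _ = MvPolynomial.eval (w ((N : ℝ) • θ)) (Polynomial.aeval (G i) ((C.F (D i)).map σ))
    rw [Polynomial.aeval_def, Polynomial.hom_eval₂, Polynomial.eval₂_map]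
    congr 1
    refine RingHom.ext fun y => ?_
    show γ.e θ (algebraMap K A y) = MvPolynomial.eval (w ((N : ℝ) • θ)) (MvPolynomial.C (σ y))
    rw [hγσ, MvPolynomial.eval_C]
  set H : Fin (n + 1 + 1) → (Fin (n + 1) → ℝ) → ℂ := fun i θ =>
    MvPolynomial.eval (w θ) (q (some i)) with hH
  have hHg : ∀ i, Good (H i) := fun i => (hw (some i)).1
  have hHp : ∀ i, Per (H i) := fun i θ j => by
    simp only [hH]
    rw [hwp]
  have hcl := hclose H hHg hHp fun l j θ => by
    have h1 := (hw (some l)).2 j θ
    have h2 : ((R l j.succ : ℝ) : ℂ) = ∑ l', if j = τ l' then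
        (nex mm (fun i => al (some l) i) l' : ℂ) else 0 := by
      rw [hRs, Complex.ofReal_sum]
      refine Finset.sum_congr rfl fun l' _ => ?_
      split_ifs <;> simp
    rw [h2]
    exact h1
  have hHu : ∀ l l', Good (Function.update H l (fun _ => (2 : ℂ)) l') := by
    intro l l'
    by_cases h : l' = l
    · subst h
      rw [Function.update_self]
      exact good_const two_ne_zero
    · rw [Function.update_of_ne h]
      exact hHg l'
  have hHup : ∀ l l', Per (Function.update H l (fun _ => (2 : ℂ)) l') := by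
    intro l l'
    by_cases h : l' = l
    · subst h
      rw [Function.update_self]
      exact fun _ _ => rfl
    · rw [Function.update_of_ne h]
      exact hHp l'
  have e2 : γ.reg (lead C (algebraMap K A) D) = (N : ℝ) ^ (n + 1) * ∑ i, R i 0 *
      pairing (Function.update H i fun _ => (2 : ℂ)) := by
    unfold lead
    rw [map_sum, Finset.mul_sum]
    refine Finset.sum_congr rfl fun i _ => ?_
    have hq : (((C.F (D i)).natDegree : ℚ) : ℝ) = R i 0 := by
      rw [hR0]
      exact Rat.cast_natCast _
    rw [map_smul, Rat.smul_def, hq, mul_left_comm]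
    congr 1
    rw [← pairing_scale hN (hHu i) (hHup i)]
    unfold sub
    rw [Torus.reg_symb]
    unfold Torus.pair
    congr 1
    funext l
    by_cases hl : l = i
    · subst hl
      rw [Function.update_self, Function.update_self]
      funext θ
      show γ.e θ (algebraMap K A 2) = 2
      rw [hγσ, map_ofNat]
    · rw [Function.update_of_ne hl, Function.update_of_ne hl]
      funext θ
      exact hγf θ l
  refine ⟨γ, hγσ, ?_⟩
  rw [e2]
  refine mul_ne_zero (pow_ne_zero _ (by exact_mod_cast hN.ne')) fun h0 => ?_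
  rw [h0, zero_div, zero_sub, abs_neg] at hcl
  have h1 : 0 < |r| := abs_pos.2 hr0
  linarith

end main

end Pool.Agent.L7h9.VA
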