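import Mathlib
set_option autoImplicit false

/-!
A linear relation between roots of polynomials: unless all the polynomials are powers of linear
polynomials, one can choose roots of all but one of the polynomials such that the number which is
determined by the relation is not a root of the remaining polynomial.
-/

namespace Pool.Agent.L7h9.VA

open scoped Polynomial Pointwise

open Polynomial (X C)

variable {n : ℕ}

theorem exists_roots (P : Fin (n + 3) → ℂ[X]) (hP : ∀ i, (P i).Monic)
    (hd : ∀ i, 0 < (P i).natDegree) (c : Fin (n + 3) → ℂ) (hc : ∀ i, c i ≠ 0)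
    (hND : ¬ ∃ β : Fin (n + 3) → ℂ, (∀ i, P i = (X - C (β i)) ^ (P i).natDegree) ∧
      ∑ i, c i * β i = 0) :
    ∃ (i0 : Fin (n + 3)) (β : Fin (n + 3) → ℂ), ∑ i, c i * β i = 0 ∧
      (∀ i, i ≠ i0 → (P i).eval (β i) = 0) ∧ (P i0).eval (β i0) ≠ 0 := by
  classical
  by_contra hcon
  have H : ∀ (i0 : Fin (n + 3)) (β : Fin (n + 3) → ℂ), ∑ i, c i * β i = 0 →
      (∀ i, i ≠ i0 → (P i).eval (β i) = 0) → (P i0).eval (β i0) = 0 := by
    intro i0 β h1 h2
    by_contra h3
    exact hcon ⟨i0, β, h1, h2, h3⟩
  set R : Fin (n + 3) → Finset ℂ := fun i => (P i).roots.toFinset with hR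
  have hmem : ∀ i x, x ∈ R i ↔ (P i).eval x = 0 := fun i x => by
    simp only [hR]
    rw [Multiset.mem_toFinset, Polynomial.mem_roots (hP i).ne_zero, Polynomial.IsRoot.def]
  have hex : ∀ i, ∃ x, x ∈ R i := fun i => by
    obtain ⟨x, hx⟩ := IsAlgClosed.exists_root (P i) (by
      rw [Polynomial.degree_eq_natDegree (hP i).ne_zero]
      exact_mod_cast (hd i).ne')
    exact ⟨x, (hmem i x).2 hx⟩
  choose ρ hρ using hex
  obtain ⟨i0, -, hmin⟩ := Finset.exists_min_image Finset.univ (fun i => (R i).card)
    ⟨0, Finset.mem_univ _⟩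
  -- the sum over the other indices
  have key : ∀ i1 i2, i1 ≠ i0 → i2 ≠ i0 → i1 ≠ i2 →
      (R i1).card + (R i2).card - 1 ≤ (R i0).card := by
    intro i1 i2 h1 h2 h12
    set T : ℂ := ∑ i ∈ ((Finset.univ.erase i0).erase i1).erase i2, c i * ρ i with hT
    have hcard : ∀ i, ((R i).image (c i * ·)).card = (R i).card := fun i =>
      Finset.card_image_of_injective _ (mul_right_injective₀ (hc i))
    have hcd := cauchy_davenport_of_isAddTorsionFree (G := ℂ) (s := (R i1).image (c i1 * ·))
      (t := (R i2).image (c i2 * ·)) ⟨_, Finset.mem_image_of_mem _ (hρ i1)⟩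
      ⟨_, Finset.mem_image_of_mem _ (hρ i2)⟩
    rw [hcard, hcard] at hcd
    refine hcd.trans ?_
    have hsub : (R i1).image (c i1 * ·) + (R i2).image (c i2 * ·) ⊆
        (R i0).image fun x => -(c i0 * x) - T := by
      intro y hy
      obtain ⟨y1, hy1, y2, hy2, rfl⟩ := Finset.mem_add.1 hy
      obtain ⟨r1, hr1, rfl⟩ := Finset.mem_image.1 hy1
      obtain ⟨r2, hr2, rfl⟩ := Finset.mem_image.1 hy2
      set b : ℂ := -(c i1 * r1 + c i2 * r2 + T) / c i0 with hb
      set β : Fin (n + 3) → ℂ := fun i =>
        if i = i0 then b else if i = i1 then r1 else if i = i2 then r2 else ρ i with hβ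
      have hβ0 : β i0 = b := if_pos rfl
      have hβ1 : β i1 = r1 := (if_neg h1).trans (if_pos rfl)
      have hβ2 : β i2 = r2 := (if_neg h2).trans ((if_neg h12.symm).trans (if_pos rfl))
      have hβr : ∀ i, i ≠ i0 → i ≠ i1 → i ≠ i2 → β i = ρ i := by
        intro i a1 a2 a3
        simp only [hβ]
        rw [if_neg a1, if_neg a2, if_neg a3]
      have hsum : ∑ i, c i * β i = 0 := by
        rw [← Finset.add_sum_erase Finset.univ _ (Finset.mem_univ i0),
          ← Finset.add_sum_erase _ _ (Finset.mem_erase.2 ⟨h1, Finset.mem_univ i1⟩),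
          ← Finset.add_sum_erase _ _ (Finset.mem_erase.2 ⟨h12.symm,
            Finset.mem_erase.2 ⟨h2, Finset.mem_univ i2⟩⟩), hβ0, hβ1, hβ2]
        have hT' : ∑ i ∈ ((Finset.univ.erase i0).erase i1).erase i2, c i * β i = T := by
          refine Finset.sum_congr rfl fun i hi => ?_
          obtain ⟨a3, hi⟩ := Finset.mem_erase.1 hi
          obtain ⟨a2, hi⟩ := Finset.mem_erase.1 hi
          obtain ⟨a1, -⟩ := Finset.mem_erase.1 hi
          rw [hβr i a1 a2 a3]
        rw [hT', hb, mul_div_cancel₀ _ (hc i0)]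
        ring
      have hroot := H i0 β hsum fun i hi => by
        by_cases a1 : i = i1
        · rw [a1, hβ1]
          exact (hmem _ _).1 hr1
        · by_cases a2 : i = i2
          · rw [a2, hβ2]
            exact (hmem _ _).1 hr2
          · rw [hβr i hi a1 a2]
            exact (hmem _ _).1 (hρ i)
      rw [hβ0] at hroot
      refine Finset.mem_image.2 ⟨b, (hmem _ _).2 hroot, ?_⟩
      rw [hb, mul_div_cancel₀ _ (hc i0)]
      ring
    exact (Finset.card_le_card hsub).trans Finset.card_image_le
  have hthird : ∀ i : Fin (n + 3), ∃ i', i' ≠ i0 ∧ i' ≠ i := by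
    intro i
    have h1 : (({i0, i} : Finset (Fin (n + 3)))).card < Fintype.card (Fin (n + 3)) := by
      refine lt_of_le_of_lt Finset.card_le_two ?_
      rw [Fintype.card_fin]
      omega
    obtain ⟨i', hi'⟩ := Finset.exists_mem_notMem_of_card_lt_card
      (t := (Finset.univ : Finset (Fin (n + 3)))) (s := {i0, i}) (by rwa [Finset.card_univ])
    refine ⟨i', fun h => hi'.2 ?_, fun h => hi'.2 ?_⟩
    · rw [h]
      exact Finset.mem_insert_self _ _
    · rw [h]
      exact Finset.mem_insert_of_mem (Finset.mem_singleton_self _)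
  have hpos : ∀ i, 0 < (R i).card := fun i => Finset.card_pos.2 ⟨ρ i, hρ i⟩
  have hone : ∀ i, i ≠ i0 → (R i).card = 1 := by
    intro i hi
    obtain ⟨i', h1, h2⟩ := hthird i
    have h3 := key i i' hi h1 h2.symm
    have h4 := hmin i' (Finset.mem_univ _)
    have h5 := hpos i
    have h6 := hpos i'
    omega
  have hone' : ∀ i, (R i).card = 1 := by
    intro i
    by_cases hi : i = i0
    · subst hi
      obtain ⟨i', h1, -⟩ := hthird i
      have h3 := hmin i' (Finset.mem_univ _)
      have h4 := hone i' h1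
      have h5 := hpos i
      omega
    · exact hone i hi
  have huniq : ∀ i x, (P i).eval x = 0 → x = ρ i := by
    intro i x hx
    obtain ⟨y, hy⟩ := Finset.card_eq_one.1 (hone' i)
    have h1 : x ∈ R i := (hmem i x).2 hx
    have h2 := hρ i
    rw [hy, Finset.mem_singleton] at h1 h2
    rw [h1, h2]
  refine hND ⟨ρ, fun i => ?_, ?_⟩
  · have hsplit := IsAlgClosed.splits (P i)
    have h1 : (P i).roots = Multiset.replicate (P i).natDegree (ρ i) := by
      rw [Multiset.eq_replicate]
      refine ⟨hsplit.natDegree_eq_card_roots.symm, fun x hx => ?_⟩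
      rw [Polynomial.mem_roots (hP i).ne_zero] at hx
      exact huniq i x hx
    have h2 := hsplit.eq_prod_roots_of_monic (hP i)
    rw [h1, Multiset.map_replicate, Multiset.prod_replicate] at h2
    exact h2
  · set b : ℂ := -(∑ i ∈ Finset.univ.erase i0, c i * ρ i) / c i0 with hb
    have hsum : ∑ i, c i * Function.update ρ i0 b i = 0 := by
      rw [← Finset.add_sum_erase Finset.univ _ (Finset.mem_univ i0), Function.update_self, hb,
        mul_div_cancel₀ _ (hc i0), neg_add_eq_zero]
      refine Finset.sum_congr rfl fun i hi => ?_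
      rw [Function.update_of_ne (Finset.mem_erase.1 hi).1]
    have hroot := H i0 _ hsum fun i hi => by
      rw [Function.update_of_ne hi]
      exact (hmem _ _).1 (hρ i)
    rw [Function.update_self] at hroot
    have h1 := huniq i0 b hroot
    rw [h1, Function.update_eq_self] at hsum
    exact hsum

/-- A power of a linear polynomial over `ℂ` with coefficients in a subfield is a power of a linear
polynomial over the subfield. -/
theorem exists_linear {K : Type*} [Field K] [CharZero K] (σ : K →+* ℂ) {F : K[X]} (hF : F.Monic)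
    (hd : 0 < F.natDegree) {β : ℂ} (h : F.map σ = (X - C β) ^ F.natDegree) :
    ∃ b : K, σ b = β ∧ F = (X - C b) ^ F.natDegree := by
  have h1 : σ F.nextCoeff = -((F.natDegree : ℂ) * β) := by
    rw [← Polynomial.nextCoeff_map σ.injective, h, (Polynomial.monic_X_sub_C β).nextCoeff_pow,
      Polynomial.nextCoeff_X_sub_C, nsmul_eq_mul]
    ring
  have hd' : (F.natDegree : K) ≠ 0 := by exact_mod_cast hd.ne'
  have hd'' : (F.natDegree : ℂ) ≠ 0 := by exact_mod_cast hd.ne'
  have hb : σ (-(F.nextCoeff / F.natDegree)) = β := by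
    rw [map_neg, map_div₀, h1, map_natCast]
    field_simp
  refine ⟨-(F.nextCoeff / F.natDegree), hb, ?_⟩
  apply Polynomial.map_injective σ σ.injective
  rw [Polynomial.map_pow, Polynomial.map_sub, Polynomial.map_X, Polynomial.map_C, hb]
  exact h

end Pool.Agent.L7h9.VA
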