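import Pool.Agent.L7h9.VA.Corner
import Pool.Agent.L7h9.VA.Root
set_option autoImplicit false

/-!
The leading class of a circuit has a nonzero regulator on some torus, for functions in an arbitrary
finitely generated algebra.
-/

namespace Pool.Agent.L7h9.VA

open Pool.Agent.TH826.MK

open Pool.Agent.N65.TL

open Pool.Agent.L7h9.SU

open Pool.Agent.L7h9.CP (Cov lead sub)

section prime

variable {K : Type*} [Field K] {A : Type*} [CommRing A] [Algebra K A]

/-- Algebraically independent elements remain so modulo a suitable prime ideal. -/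
theorem exists_prime {n : ℕ} {g : Fin n → A} (hg : AlgebraicIndependent K g) :
    ∃ p : Ideal A, p.IsPrime ∧ AlgebraicIndependent K fun j => Ideal.Quotient.mk p (g j) := by
  set S : Submonoid A := (nonZeroDivisors (MvPolynomial (Fin n) K)).map
    (MvPolynomial.aeval (R := K) g) with hS
  have hdis : Disjoint ((⊥ : Ideal A) : Set A) S := by
    rw [Set.disjoint_left]
    rintro a ha ⟨q, hq, hqa⟩
    have h1 : a = 0 := ha
    rw [h1] at hqa
    have h2 : q = 0 := hg (by rw [map_zero]; exact hqa)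
    exact nonZeroDivisors.ne_zero hq h2
  obtain ⟨p, hp, -, hpS⟩ := Ideal.exists_le_prime_disjoint ⊥ S hdis
  refine ⟨p, hp, ?_⟩
  rw [algebraicIndependent_iff]
  intro q hq
  by_contra hq0
  have h1 : MvPolynomial.aeval (fun j => Ideal.Quotient.mk p (g j)) q =
      Ideal.Quotient.mk p (MvPolynomial.aeval g q) :=
    (MvPolynomial.map_aeval g (Ideal.Quotient.mk p) q).symm ▸ rfl
  rw [h1, Ideal.Quotient.eq_zero_iff_mem] at hq
  exact Set.disjoint_left.1 hpS hq ⟨q, mem_nonZeroDivisors_of_ne_zero hq0, rfl⟩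

end prime

section main

variable {K : Type*} [Field K] [CharZero K] {A : Type*} [CommRing A] [Algebra K A] {m n : ℕ}

/-- The regulator of the leading class in terms of the functions. -/
theorem reg_lead {σ : K →+* ℂ} (C : Cov K A m) (D : Fin (n + 1) → Fin m) (γ : Torus A n)
    (hγ : ∀ θ (x : K), γ.e θ (algebraMap K A x) = σ x) :
    γ.reg (lead C (algebraMap K A) D) = ∑ i, ((C.F (D i)).natDegree : ℝ) *
      pairing (Function.update (fun i => γ.fn (C.f (D i) : A)) i fun _ => (2 : ℂ)) := by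
  unfold lead
  rw [map_sum]
  refine Finset.sum_congr rfl fun i _ => ?_
  have hq : (((C.F (D i)).natDegree : ℚ) : ℝ) = ((C.F (D i)).natDegree : ℝ) :=
    Rat.cast_natCast _
  rw [map_smul, Rat.smul_def, hq]
  congr 1
  unfold sub
  rw [Torus.reg_symb]
  unfold Torus.pair
  congr 1
  funext l
  by_cases hl : l = i
  · subst hl
    rw [Function.update_self, Function.update_self]
    funext θ
    show γ.e θ (algebraMap K A 2) = 2
    rw [hγ, map_ofNat]
  · rw [Function.update_of_ne hl, Function.update_of_ne hl]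

theorem exists_corner' [Algebra.FiniteType K A] (σ : K →+* ℂ) {C : Cov K A m}
    (hC : C.Admissible (algebraMap K A)) {D : Fin (n + 1 + 1) → Fin m}
    {c : Fin (n + 1 + 1) → K} (i0 : Fin (n + 1 + 1))
    (hrel : ∑ i, algebraMap K A (c i) * C.g (D i) = 0) (hc : c i0 ≠ 0)
    (hind : AlgebraicIndependent K fun j => C.g (D (i0.succAbove j))) (β : Fin (n + 1) → ℂ)
    (hβ : ∀ j, ((C.F (D (i0.succAbove j))).map σ).eval (β j) = 0) {b0 : ℂ}
    (hb0 : σ (c i0) * b0 + ∑ j, σ (c (i0.succAbove j)) * β j = 0)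
    (hF : ((C.F (D i0)).map σ).eval b0 ≠ 0) :
    ∃ γ : Torus A (n + 1), (∀ θ (x : K), γ.e θ (algebraMap K A x) = σ x) ∧
      γ.reg (lead C (algebraMap K A) D) ≠ 0 := by
  obtain ⟨p, hp, hgp⟩ := exists_prime hind
  set π : A →+* A ⧸ p := Ideal.Quotient.mk p with hπ
  have hπK : ∀ x : K, π (algebraMap K A x) = algebraMap K (A ⧸ p) x := fun x => rfl
  have hcomp : π.comp (algebraMap K A) = algebraMap K (A ⧸ p) := RingHom.ext hπK
  set C' : Cov K (A ⧸ p) m :=
    ⟨fun e => π (C.g e), C.F, C.W, fun e => Units.map π.toMonoidHom (C.f e)⟩ with hC'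
  have hadm : C'.Admissible (algebraMap K (A ⧸ p)) := by
    refine ⟨fun e => ?_, hC.monic, hC.pos, hC.integral, hC.integralW, hC.interior, hC.ends⟩
    show π (C.f e : A) = (C.F e).eval₂ (algebraMap K (A ⧸ p)) (π (C.g e))
    rw [hC.val, Polynomial.hom_eval₂, hcomp]
  obtain ⟨γ, hγ, hne⟩ := exists_corner σ hadm (D := D) (c := c) i0 (by
      have h1 := congrArg π hrel
      rw [map_sum, map_zero] at h1
      rw [← h1]
      refine Finset.sum_congr rfl fun i _ => ?_
      rw [map_mul, hπK]) hc hgp β hβ hb0 hF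
  set Γ : Torus A (n + 1) := ⟨fun θ => (γ.e θ).comp π, fun b => γ.smooth (π b),
    fun θ i => by rw [γ.periodic]⟩ with hΓ
  have hΓK : ∀ θ (x : K), Γ.e θ (algebraMap K A x) = σ x := fun θ x => by
    show γ.e θ (π (algebraMap K A x)) = σ x
    rw [hπK, hγ]
  refine ⟨Γ, hΓK, ?_⟩
  have h1 : Γ.reg (lead C (algebraMap K A) D) =
      γ.reg (lead C' (algebraMap K (A ⧸ p)) D) := by
    rw [reg_lead C D Γ hΓK, reg_lead C' D γ hγ]
    rfl
  rw [h1]
  exact hne

/-- The leading class of a circuit has nonzero regulators. -/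
theorem exists_period [Algebra.FiniteType K A] (σ : K →+* ℂ) {C : Cov K A m}
    (hC : C.Admissible (algebraMap K A)) {D : Fin (n + 3) → Fin m}
    {c : Fin (n + 3) → K} (hc : ∀ i, c i ≠ 0)
    (hrel : ∑ i, algebraMap K A (c i) * C.g (D i) = 0)
    (hind : ∀ i : Fin (n + 3), AlgebraicIndependent K fun j => C.g (D (i.succAbove j)))
    (hND : ¬ ∃ β : Fin (n + 3) → K, (∀ i, C.F (D i) =
      (Polynomial.X - Polynomial.C (β i)) ^ (C.F (D i)).natDegree) ∧ ∑ i, c i * β i = 0) :
    ∃ γ : Torus A (n + 2), (∀ θ (x : K), γ.e θ (algebraMap K A x) = σ x) ∧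
      γ.reg (lead C (algebraMap K A) D) ≠ 0 := by
  obtain ⟨i0, β, h1, h2, h3⟩ := exists_roots (fun i => (C.F (D i)).map σ)
    (fun i => (hC.monic _).map σ) (fun i => by
      rw [(hC.monic (D i)).natDegree_map]
      exact hC.pos _) (fun i => σ (c i)) (fun i => by
      rw [Ne, map_eq_zero]
      exact hc i) (by
      rintro ⟨β, hβ, hs⟩
      choose b hb hb' using fun i => exists_linear σ (hC.monic (D i)) (hC.pos (D i)) (β := β i)
        (by
          have := hβ i
          rwa [(hC.monic (D i)).natDegree_map] at this)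
      refine hND ⟨b, hb', σ.injective ?_⟩
      rw [map_sum, map_zero, ← hs]
      refine Finset.sum_congr rfl fun i _ => ?_
      rw [map_mul, hb])
  refine exists_corner' (n := n + 1) σ hC i0 hrel (hc i0) (hind i0)
    (fun j => β (i0.succAbove j)) (fun j => h2 _ (Fin.succAbove_ne i0 j)) (b0 := β i0) ?_ h3
  rw [Fin.sum_univ_succAbove _ i0] at h1
  exact h1

end main

end Pool.Agent.L7h9.VA
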