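import Pool.Agent.L7h9.SU.Cov2
set_option autoImplicit false

/-!
Tori in an affine space over which a variety is generically finite can be lifted to the variety
after a multiplication of the angles with an integer.
-/

namespace Pool.Agent.L7h9.VA

open scoped Polynomial

open Pool.Agent.TH826.MK

open Pool.Agent.L7h9.SU (pval dval pval_eq dval_eq exists_periodic_root exists_bezout)

section poly

/-- The polynomials which vanish at `a` vanish at the root `y`. -/
theorem eval_eq_zero {B B' : Type*} [CommRing B] [IsDomain B] [CommRing B'] (φ : B →+* B')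
    (a : B') {P : B[X]} (hP : P ≠ 0) (hPa : P.eval₂ φ a = 0)
    (hmin : ∀ q : B[X], q.eval₂ φ a = 0 → q.degree < P.degree → q = 0)
    (χ : B →+* ℂ) {y : ℂ} (hc : χ P.leadingCoeff ≠ 0) (hy : P.eval₂ χ y = 0) :
    ∀ (k : ℕ) (q : B[X]), q.natDegree < k → q.eval₂ φ a = 0 → q.eval₂ χ y = 0 := by
  intro k
  induction k with
  | zero => exact fun q hq => absurd hq (Nat.not_lt_zero _)
  | succ k ih =>
    intro q hqk hqa
    by_cases hlt : q.degree < P.degree
    · rw [hmin q hqa hlt, Polynomial.eval₂_zero]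
    · by_cases hq0 : q = 0
      · rw [hq0, Polynomial.eval₂_zero]
      have hlc : P.leadingCoeff ≠ 0 := Polynomial.leadingCoeff_ne_zero.2 hP
      have hlq : q.leadingCoeff ≠ 0 := Polynomial.leadingCoeff_ne_zero.2 hq0
      have hle : P.natDegree ≤ q.natDegree := Polynomial.natDegree_le_natDegree (not_lt.1 hlt)
      set e : ℕ := q.natDegree - P.natDegree with he
      set q' : B[X] := Polynomial.C P.leadingCoeff * q -
        Polynomial.C q.leadingCoeff * Polynomial.X ^ e * P with hq'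
      have hd1 : (Polynomial.C P.leadingCoeff * q).degree = q.degree :=
        Polynomial.degree_C_mul hlc
      have hd2 : (Polynomial.C q.leadingCoeff * Polynomial.X ^ e * P).degree = q.degree := by
        rw [Polynomial.degree_mul, Polynomial.degree_C_mul_X_pow _ hlq,
          Polynomial.degree_eq_natDegree hP, Polynomial.degree_eq_natDegree hq0]
        have : e + P.natDegree = q.natDegree := by omega
        exact_mod_cast this
      have hlt' : q'.degree < q.degree := by
        have h1 : q'.degree < (Polynomial.C P.leadingCoeff * q).degree := by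
          refine Polynomial.degree_sub_lt (hd1.trans hd2.symm)
            (mul_ne_zero (Polynomial.C_ne_zero.2 hlc) hq0) ?_
          rw [Polynomial.leadingCoeff_mul, Polynomial.leadingCoeff_C, Polynomial.leadingCoeff_mul,
            Polynomial.leadingCoeff_mul, Polynomial.leadingCoeff_C,
            Polynomial.leadingCoeff_X_pow, mul_one, mul_comm]
        rwa [hd1] at h1
      have hq'a : q'.eval₂ φ a = 0 := by
        rw [hq', Polynomial.eval₂_sub, Polynomial.eval₂_mul, Polynomial.eval₂_mul, hqa, hPa,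
          mul_zero, mul_zero, sub_zero]
      have hq'y : q'.eval₂ χ y = 0 := by
        by_cases hq'0 : q' = 0
        · rw [hq'0, Polynomial.eval₂_zero]
        · refine ih q' ?_ hq'a
          have := Polynomial.natDegree_lt_natDegree hq'0 hlt'
          omega
      rw [hq', Polynomial.eval₂_sub, Polynomial.eval₂_mul, Polynomial.eval₂_mul,
        Polynomial.eval₂_C, hy, mul_zero, sub_zero] at hq'y
      exact (mul_eq_zero.1 hq'y).resolve_left hc

/-- A polynomial of minimal degree, without multiple roots. -/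
theorem exists_min {B B' : Type*} [CommRing B] [IsDomain B] [CharZero B] [CommRing B']
    [IsDomain B'] (φ : B →+* B') (hφ : Function.Injective φ) (a : B')
    (ha : ∃ q : B[X], q ≠ 0 ∧ q.eval₂ φ a = 0) :
    ∃ (P : B[X]) (D : B) (u v : B[X]), P ≠ 0 ∧ 0 < P.natDegree ∧ P.eval₂ φ a = 0 ∧
      (∀ q : B[X], q.eval₂ φ a = 0 → q.degree < P.degree → q = 0) ∧ D ≠ 0 ∧
      u * P + v * Polynomial.derivative P = Polynomial.C D := by
  classical
  set ψ : FractionRing B →+* FractionRing B' :=
    IsLocalization.map (S := FractionRing B) (FractionRing B') (T := nonZeroDivisors B') φ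
      (nonZeroDivisors_le_comap_nonZeroDivisors_of_injective φ hφ) with hψ
  have hψa : ∀ b, ψ (algebraMap B (FractionRing B) b) = algebraMap B' (FractionRing B') (φ b) :=
    fun b => IsLocalization.map_eq _ _
  letI : Algebra (FractionRing B) (FractionRing B') := ψ.toAlgebra
  have hinj : Function.Injective (algebraMap B (FractionRing B)) := IsFractionRing.injective _ _
  have hinj' : Function.Injective (algebraMap B' (FractionRing B')) :=
    IsFractionRing.injective _ _
  set a' : FractionRing B' := algebraMap B' (FractionRing B') a with ha'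
  have hev : ∀ q : B[X], Polynomial.aeval a' (q.map (algebraMap B (FractionRing B))) =
      algebraMap B' (FractionRing B') (q.eval₂ φ a) := by
    intro q
    rw [Polynomial.aeval_def, Polynomial.eval₂_map, Polynomial.hom_eval₂]
    congr 1
    exact RingHom.ext fun b => hψa b
  have hint : IsIntegral (FractionRing B) a' := by
    obtain ⟨q, hq, hqa⟩ := ha
    refine IsAlgebraic.isIntegral ⟨q.map (algebraMap B (FractionRing B)), ?_, ?_⟩
    · rwa [Ne, Polynomial.map_eq_zero_iff hinj]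
    · rw [hev, hqa, map_zero]
  set μ := minpoly (FractionRing B) a' with hμ
  have hμ0 : μ ≠ 0 := minpoly.ne_zero hint
  obtain ⟨d, hd, hdP⟩ := IsLocalization.integerNormalization_spec (nonZeroDivisors B) μ
  set P := IsLocalization.integerNormalization (nonZeroDivisors B) μ with hP
  have hd0 : algebraMap B (FractionRing B) d ≠ 0 := by
    rw [Ne, map_eq_zero_iff _ hinj]
    exact nonZeroDivisors.ne_zero hd
  have hPC : P.map (algebraMap B (FractionRing B)) =
      Polynomial.C (algebraMap B (FractionRing B) d) * μ := by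
    rw [hdP, Algebra.smul_def]
    rfl
  have hdeg : P.degree = μ.degree := by
    rw [← Polynomial.degree_map_eq_of_injective hinj P, hPC, Polynomial.degree_C_mul hd0]
  have hP0 : P ≠ 0 := by
    intro h0
    rw [h0, Polynomial.degree_zero] at hdeg
    exact hμ0 (Polynomial.degree_eq_bot.1 hdeg.symm)
  have hPa : P.eval₂ φ a = 0 := by
    apply hinj'
    rw [map_zero, ← hev, hPC, map_mul, minpoly.aeval, mul_zero]
  have hmin : ∀ q : B[X], q.eval₂ φ a = 0 → q.degree < P.degree → q = 0 := by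
    intro q hqa hlt
    by_contra hq0
    have h1 : q.map (algebraMap B (FractionRing B)) ≠ 0 := by
      rwa [Ne, Polynomial.map_eq_zero_iff hinj]
    have h2 := minpoly.degree_le_of_ne_zero (FractionRing B) a' h1 (by rw [hev, hqa, map_zero])
    rw [Polynomial.degree_map_eq_of_injective hinj] at h2
    rw [hdeg] at hlt
    exact absurd (lt_of_le_of_lt h2 hlt) (lt_irrefl _)
  have hsep : (P.map (algebraMap B (FractionRing B))).Separable := by
    refine Polynomial.Separable.of_dvd (minpoly.irreducible hint).separable ?_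
    refine ⟨Polynomial.C (algebraMap B (FractionRing B) d)⁻¹, ?_⟩
    rw [hPC, mul_comm, ← mul_assoc, ← Polynomial.C_mul, inv_mul_cancel₀ hd0, Polynomial.C_1,
      one_mul]
  obtain ⟨D, u, v, hD, huv⟩ := exists_bezout (p := P) (q := Polynomial.derivative P) (by
    rw [← Polynomial.derivative_map]
    exact hsep)
  refine ⟨P, D, u, v, hP0, ?_, hPa, hmin, hD, huv⟩
  have h3 : P.natDegree = μ.natDegree := Polynomial.natDegree_eq_of_degree_eq hdeg
  rw [h3]
  exact minpoly.natDegree_pos hint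

end poly

section lif

variable {K : Type*} [Field K] {M : ℕ} {σ : K →+* ℂ}

/-- The tori in the affine space, outside of a hypersurface `h = 0`, can be lifted along `j` after
a multiplication of the angles with an integer. -/
def Lif (σ : K →+* ℂ) {B : Type*} [CommRing B] (j : MvPolynomial (Fin M) K →+* B) : Prop :=
  ∃ h : MvPolynomial (Fin M) K, h ≠ 0 ∧ ∀ (d : ℕ) (X : (Fin d → ℝ) → Fin M → ℂ),
    ContDiff ℝ 2 X → (∀ θ i, X (θ + Pi.single i 1) = X θ) →
    (∀ θ, MvPolynomial.eval₂ σ (X θ) h ≠ 0) →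
    ∃ (N : ℕ) (γ : Torus B d), 0 < N ∧
      ∀ θ c, γ.e θ (j c) = MvPolynomial.eval₂ σ (X ((N : ℝ) • θ)) c

theorem contDiff_eval₂ {d : ℕ} {X : (Fin d → ℝ) → Fin M → ℂ} (hX : ContDiff ℝ 2 X)
    (c : MvPolynomial (Fin M) K) :
    ContDiff ℝ 2 fun θ => MvPolynomial.eval₂ σ (X θ) c := by
  induction c using MvPolynomial.induction_on with
  | C c => simpa using contDiff_const
  | add p q hp hq => simpa using hp.add hq
  | mul_X p k hp => simpa using hp.mul (contDiff_pi.1 hX k)

theorem lif_id : Lif (M := M) σ (RingHom.id (MvPolynomial (Fin M) K)) := by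
  refine ⟨1, one_ne_zero, fun d X hX hXp _ => ⟨1, ⟨fun θ => MvPolynomial.eval₂Hom σ (X θ),
    fun c => contDiff_eval₂ hX c, fun θ i => by rw [hXp]⟩, one_pos, fun θ c => ?_⟩⟩
  rw [Nat.cast_one, one_smul]
  rfl

theorem lif_comap {B B' : Type*} [CommRing B] [CommRing B'] {j : MvPolynomial (Fin M) K →+* B}
    {j' : MvPolynomial (Fin M) K →+* B'} (ψ : B' →+* B) (h : ∀ c, ψ (j' c) = j c)
    (hj : Lif σ j) : Lif σ j' := by
  obtain ⟨f, hf, hL⟩ := hj
  refine ⟨f, hf, fun d X hX hXp hXf => ?_⟩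
  obtain ⟨N, γ, hN, hγ⟩ := hL d X hX hXp hXf
  refine ⟨N, ⟨fun θ => (γ.e θ).comp ψ, fun b => γ.smooth (ψ b), fun θ i => by rw [γ.periodic]⟩,
    hN, fun θ c => ?_⟩
  show γ.e θ (ψ (j' c)) = _
  rw [h, hγ]

theorem periodic_nat {B : Type*} [CommRing B] {d : ℕ} (γ : Torus B d) (N : ℕ) (θ : Fin d → ℝ)
    (i : Fin d) : γ.e ((N : ℝ) • (θ + Pi.single i 1)) = γ.e ((N : ℝ) • θ) := by
  have h1 : (N : ℝ) • (θ + Pi.single i (1 : ℝ)) = (N : ℝ) • θ + Pi.single i (N : ℝ) := by
    rw [smul_add, ← Pi.single_smul, smul_eq_mul, mul_one]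
  have h2 : ∀ (j : ℕ) θ, γ.e (θ + Pi.single i (j : ℝ)) = γ.e θ := by
    intro j
    induction j with
    | zero => intro θ; simp
    | succ j ih =>
      intro θ
      push_cast
      rw [Pi.single_add, ← add_assoc, γ.periodic, ih]
  rw [h1, h2]

theorem lif_step {B B' : Type*} [CommRing B] [IsDomain B] [CharZero B] [CommRing B']
    [IsDomain B'] {j : MvPolynomial (Fin M) K →+* B} (φ : B →+* B')
    (hφ : Function.Injective φ) (a : B')
    (hgen : Function.Surjective (Polynomial.eval₂RingHom φ a))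
    (halg : ∀ b : B, b ≠ 0 → ∃ h : MvPolynomial (Fin M) K, h ≠ 0 ∧ b ∣ j h)
    (ha : ∃ q : B[X], q ≠ 0 ∧ q.eval₂ φ a = 0) (hL : Lif σ j) : Lif σ (φ.comp j) := by
  obtain ⟨P, D, u, v, hP0, hPd, hPa, hmin, hD, huv⟩ := exists_min φ hφ a ha
  obtain ⟨h, hh, hL⟩ := hL
  set c := P.leadingCoeff with hc
  have hc0 : c ≠ 0 := Polynomial.leadingCoeff_ne_zero.2 hP0
  obtain ⟨h1, hh1, hd1⟩ := halg c hc0
  obtain ⟨h2, hh2, hd2⟩ := halg D hD
  refine ⟨h * (h1 * h2), mul_ne_zero hh (mul_ne_zero hh1 hh2), fun d X hX hXp hXh => ?_⟩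
  have hev : ∀ θ (p q : MvPolynomial (Fin M) K), MvPolynomial.eval₂ σ (X θ) (p * q) ≠ 0 →
      MvPolynomial.eval₂ σ (X θ) p ≠ 0 ∧ MvPolynomial.eval₂ σ (X θ) q ≠ 0 := by
    intro θ p q hpq
    rw [MvPolynomial.eval₂_mul] at hpq
    exact ⟨left_ne_zero_of_mul hpq, right_ne_zero_of_mul hpq⟩
  obtain ⟨N, γ, hN, hγ⟩ := hL d X hX hXp fun θ => (hev θ _ _ (hXh θ)).1
  have hγc : ∀ θ, γ.e θ c ≠ 0 := by
    intro θ h0
    obtain ⟨r, hr⟩ := hd1
    have h3 := hγ θ h1
    rw [hr, map_mul, h0, zero_mul] at h3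
    exact (hev _ _ _ (hev _ _ _ (hXh _)).2).1 h3.symm
  have hγD : ∀ θ, γ.e θ D ≠ 0 := by
    intro θ h0
    obtain ⟨r, hr⟩ := hd2
    have h3 := hγ θ h2
    rw [hr, map_mul, h0, zero_mul] at h3
    exact (hev _ _ _ (hev _ _ _ (hXh _)).2).2 h3.symm
  set m : ℕ := P.natDegree with hm
  set Q : (Fin d → ℝ) → ℂ[X] := fun θ =>
    Polynomial.C (γ.e θ c)⁻¹ * P.map (γ.e θ) with hQ
  have hmapd : ∀ θ, (P.map (γ.e θ)).natDegree = m := fun θ =>
    Polynomial.natDegree_map_of_leadingCoeff_ne_zero _ (hγc θ)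
  have hmapl : ∀ θ, (P.map (γ.e θ)).leadingCoeff = γ.e θ c := fun θ =>
    Polynomial.leadingCoeff_map_of_leadingCoeff_ne_zero _ (hγc θ)
  have hQm : ∀ θ, (Q θ).Monic := fun θ =>
    Polynomial.monic_C_mul_of_mul_leadingCoeff_eq_one (by
      rw [hmapl, inv_mul_cancel₀ (hγc θ)])
  have hQd : ∀ θ, (Q θ).natDegree = m := fun θ => by
    rw [hQ]
    simp only
    rw [Polynomial.natDegree_C_mul (inv_ne_zero (hγc θ)), hmapd]
  set cf : (Fin d → ℝ) → Fin m → ℂ := fun θ i => (γ.e θ c)⁻¹ * γ.e θ (P.coeff i) with hcf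
  have hcfQ : ∀ θ, cf θ = fun i : Fin m => (Q θ).coeff i := fun θ => by
    funext i
    simp only [hcf, hQ]
    rw [Polynomial.coeff_C_mul, Polynomial.coeff_map]
  have hpv : ∀ θ y, pval (cf θ) y = (γ.e θ c)⁻¹ * P.eval₂ (γ.e θ) y := fun θ y => by
    rw [hcfQ, pval_eq (hQm θ) (hQd θ)]
    simp only [hQ]
    rw [Polynomial.eval_mul, Polynomial.eval_C, Polynomial.eval_map]
  have hdv : ∀ θ y, dval (cf θ) y = (γ.e θ c)⁻¹ *
      (Polynomial.derivative P).eval₂ (γ.e θ) y := fun θ y => by
    rw [hcfQ, dval_eq (hQm θ) (hQd θ)]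
    simp only [hQ]
    rw [Polynomial.derivative_C_mul, Polynomial.eval_mul, Polynomial.eval_C,
      Polynomial.derivative_map, Polynomial.eval_map]
  have hcfc : ContDiff ℝ 2 cf := contDiff_pi.2 fun i =>
    ((γ.smooth c).inv hγc).mul (γ.smooth _)
  obtain ⟨N', y, hN', hyc, hyp, hyr⟩ := exists_periodic_root (c := cf) hPd hcfc
    (fun θ i => by simp only [hcf]; rw [γ.periodic]) (fun θ y h0 => by
      rw [hpv] at h0
      have h3 : P.eval₂ (γ.e θ) y = 0 :=
        (mul_eq_zero.1 h0).resolve_left (inv_ne_zero (hγc θ))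
      rw [hdv]
      refine mul_ne_zero (inv_ne_zero (hγc θ)) fun h4 => ?_
      have h5 := congrArg (Polynomial.eval₂ (γ.e θ) y) huv
      rw [Polynomial.eval₂_add, Polynomial.eval₂_mul, Polynomial.eval₂_mul, h3, h4, mul_zero,
        mul_zero, add_zero, Polynomial.eval₂_C] at h5
      exact hγD θ h5.symm)
  have hroot : ∀ θ, P.eval₂ (γ.e ((N' : ℝ) • θ)) (y θ) = 0 := fun θ => by
    have h3 := hyr θ
    rw [hpv] at h3
    exact (mul_eq_zero.1 h3).resolve_left (inv_ne_zero (hγc _))
  have hker : ∀ θ (q : B[X]), q.eval₂ φ a = 0 → q.eval₂ (γ.e ((N' : ℝ) • θ)) (y θ) = 0 :=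
    fun θ q hq => eval_eq_zero φ a hP0 hPa hmin _ (hγc _) (hroot θ) (q.natDegree + 1) q
      (Nat.lt_succ_self _) hq
  set E : B[X] →+* B' := Polynomial.eval₂RingHom φ a with hE
  set G : (Fin d → ℝ) → B[X] →+* ℂ := fun θ =>
    Polynomial.eval₂RingHom (γ.e ((N' : ℝ) • θ)) (y θ) with hG
  set e' : (Fin d → ℝ) → B' →+* ℂ := fun θ =>
    RingHom.liftOfSurjective E hgen ⟨G θ, fun q hq => by
      rw [RingHom.mem_ker] at hq ⊢
      exact hker θ q hq⟩ with he'
  have he'E : ∀ θ q, e' θ (E q) = G θ q := fun θ q =>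
    RingHom.liftOfRightInverse_comp_apply _ _ (Function.rightInverse_surjInv hgen)
      ⟨G θ, fun q hq => by
        rw [RingHom.mem_ker] at hq ⊢
        exact hker θ q hq⟩ q
  refine ⟨N * N', ⟨e', fun b => ?_, fun θ i => ?_⟩, Nat.mul_pos hN hN', fun θ c' => ?_⟩
  · obtain ⟨q, rfl⟩ := hgen b
    have e1 : (fun θ => e' θ (E q)) = fun θ => ∑ i ∈ Finset.range (q.natDegree + 1),
        γ.e ((N' : ℝ) • θ) (q.coeff i) * y θ ^ i := by
      funext θ
      rw [he'E]
      simp only [hG, Polynomial.coe_eval₂RingHom]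
      rw [Polynomial.eval₂_eq_sum_range]
    rw [e1]
    exact ContDiff.sum fun i _ => ((γ.smooth _).comp (contDiff_id.const_smul (N' : ℝ))).mul
      (hyc.pow i)
  · refine RingHom.ext fun b => ?_
    obtain ⟨q, rfl⟩ := hgen b
    rw [he'E, he'E]
    simp only [hG]
    rw [periodic_nat, hyp]
  · have h3 : (φ.comp j) c' = E (Polynomial.C (j c')) := by
      rw [hE, Polynomial.coe_eval₂RingHom, Polynomial.eval₂_C]
      rfl
    show e' θ ((φ.comp j) c') = _
    rw [h3, he'E]
    simp only [hG, Polynomial.coe_eval₂RingHom]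
    rw [Polynomial.eval₂_C, hγ, smul_smul]
    push_cast
    rfl

end lif

end Pool.Agent.L7h9.VA
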